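import Pool.Agent.H317.GR.StmC

/-!
# Project GR, part C: `S_CLO` (scalars on the quotients of a flag, generated subgroups)
-/

set_option autoImplicit false

namespace Pool.Agent.H30.GR

open Matrix Module
open Pool.Agent.H317.GR

/-- an operator acting by scalars on the quotients of a flag starting at zero preserves the members of the flag -/
theorem clo_pres {K V : Type} [Field K] [AddCommGroup V] [Module K V]
    {F : ℕ → Submodule K V} (hmono : Monotone F) (h0 : F 0 = ⊥) {f : Module.End K V}
    (hf : ∀ i, ∃ c : K, ∀ v ∈ F (i + 1), f v - c • v ∈ F i) :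
    ∀ i, ∀ v ∈ F i, f v ∈ F i := by
  intro i v hv
  cases i with
  | zero =>
    rw [h0, Submodule.mem_bot] at hv
    rw [hv, map_zero]
    exact Submodule.zero_mem _
  | succ j =>
    obtain ⟨c, hc⟩ := hf j
    have h1 : f v - c • v ∈ F (j + 1) := hmono (Nat.le_succ j) (hc v hv)
    have h2 : f v = (f v - c • v) + c • v := by abel
    rw [h2]
    exact Submodule.add_mem _ h1 (Submodule.smul_mem _ _ hv)

/-- the inverse of an operator preserving a finite dimensional subspace preserves it too -/
theorem clo_inv_pres {K V : Type} [Field K] [AddCommGroup V] [Module K V] [FiniteDimensional K V]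
    {f g : Module.End K V} (hgf : ∀ v, g (f v) = v) (W : Submodule K V)
    (hW : ∀ v ∈ W, f v ∈ W) : ∀ v ∈ W, g v ∈ W := by
  intro v hv
  have hinj : Function.Injective f := Function.LeftInverse.injective hgf
  have hle : W.map f ≤ W := by
    rintro _ ⟨w, hw, rfl⟩
    exact hW w hw
  have heq : W.map f = W := by
    apply Submodule.eq_of_le_of_finrank_eq hle
    exact (LinearEquiv.finrank_eq (Submodule.equivMapOfInjective f hinj W)).symm
  rw [← heq] at hv
  obtain ⟨w, hw, rfl⟩ := hv
  rw [hgf]
  exact hw

theorem clo : S_CLO := by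
  intro K V N _ _ _ _ _ ρ S F hF
  obtain ⟨hmono, hdim, htop, hS⟩ := hF
  refine ⟨hmono, hdim, htop, ?_⟩
  have h0 : F 0 = ⊥ := by
    rw [← Submodule.finrank_eq_zero (R := K)]
    exact hdim 0 (Nat.zero_le _)
  intro g hg
  have hg' : g ∈ Subgroup.closure S := hg
  induction hg' using Subgroup.closure_induction with
  | mem x hx => exact hS x hx
  | one =>
    intro i
    refine ⟨1, fun v _ => ?_⟩
    rw [map_one, Module.End.one_apply, one_smul, sub_self]
    exact Submodule.zero_mem _
  | mul x y hx hy ihx ihy =>
    intro i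
    have ihx := ihx hx
    have ihy := ihy hy
    obtain ⟨a, ha⟩ := ihx i
    obtain ⟨b, hb⟩ := ihy i
    refine ⟨a * b, fun v hv => ?_⟩
    have hp := clo_pres hmono h0 ihx
    have h1 : ρ (x * y) v - (a * b) • v = ρ x (ρ y v - b • v) + b • (ρ x v - a • v) := by
      rw [map_mul, Module.End.mul_apply, map_sub, map_smul, smul_sub, smul_smul, mul_comm a b]
      abel
    rw [h1]
    exact Submodule.add_mem _ (hp i _ (hb v hv)) (Submodule.smul_mem _ _ (ha v hv))
  | inv x hx ihx =>
    intro i
    have ihx := ihx hx
    have hp := clo_pres hmono h0 ihx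
    by_cases hi : finrank K V ≤ i
    · refine ⟨0, fun v _ => ?_⟩
      have : F i = ⊤ := top_le_iff.1 (htop ▸ hmono hi)
      rw [this]
      exact Submodule.mem_top
    · push Not at hi
      obtain ⟨a, ha⟩ := ihx i
      have hgf : ∀ v, ρ x⁻¹ (ρ x v) = v := by
        intro v
        rw [← Module.End.mul_apply, ← map_mul, inv_mul_cancel, map_one, Module.End.one_apply]
      have hfg : ∀ v, ρ x (ρ x⁻¹ v) = v := by
        intro v
        rw [← Module.End.mul_apply, ← map_mul, mul_inv_cancel, map_one, Module.End.one_apply]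
      have hinj : Function.Injective (ρ x) := Function.LeftInverse.injective hgf
      have ha0 : a ≠ 0 := by
        intro ha0
        have hle : (F (i + 1)).map (ρ x) ≤ F i := by
          rintro _ ⟨w, hw, rfl⟩
          have := ha w hw
          rw [ha0, zero_smul, sub_zero] at this
          exact this
        have h1 := Submodule.finrank_mono hle
        have h2 : finrank K ((F (i + 1)).map (ρ x)) = finrank K (F (i + 1)) :=
          (LinearEquiv.finrank_eq (Submodule.equivMapOfInjective (ρ x) hinj _)).symm
        rw [h2, hdim (i + 1) (by omega), hdim i (by omega)] at h1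
        omega
      have hq : ∀ v ∈ F i, ρ x⁻¹ v ∈ F i := clo_inv_pres hgf (F i) (hp i)
      refine ⟨a⁻¹, fun v hv => ?_⟩
      have h1 : ρ x⁻¹ v - a⁻¹ • v = -(a⁻¹ • ρ x⁻¹ (ρ x v - a • v)) := by
        rw [map_sub, map_smul, hgf, smul_sub, smul_smul, inv_mul_cancel₀ ha0, one_smul]
        abel
      rw [h1]
      exact Submodule.neg_mem _ (Submodule.smul_mem _ _ (hq _ (ha v hv)))

end Pool.Agent.H30.GR
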